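import Pool.Agent.Helper49.KX.St

set_option autoImplicit false

namespace Pool.Agent.Helper60.KX

open Pool.Agent.Helper49.KX
open Finset Filter Topology MeasureTheory Module

theorem hLOC : StLoc := by
  classical
  intro hWin hWia X _ _ _ _ h r N g y V t h0 h1 h2
  have hdis : Disjoint (SB r N) (vis h r N V t) := by
    rw [Finset.disjoint_left]
    intro i hi hi'
    unfold vis at hi'
    rw [Finset.mem_filter] at hi'
    exact hi'.2.1 hi
  have hη : ∀ τ ∈ vis h r N V t, ∀ τ' ∈ vis h r N V t,
      atx (cm h r y) t τ' τ = if τ' = τ then 1 else 0 := by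
    intro τ hτ τ' hτ'
    unfold vis at hτ hτ'
    rw [Finset.mem_filter] at hτ hτ'
    have e : atx (cm h r y) t τ' τ
        = y (((τ' : ℕ) : ℤ) - ((τ : ℕ) : ℤ)) ((h ^ ((τ' : ℕ) : ℤ) : X ≃ₜ X) t) := rfl
    rw [e]
    by_cases hc : τ' = τ
    · subst hc
      rw [sub_self, if_pos rfl]
      exact h0 _ hτ'.2.2
    · rw [if_neg hc]
      have hn : ((τ' : ℕ) : ℤ) - ((τ : ℕ) : ℤ) ≠ 0 := by
        intro hh
        apply hc
        apply Fin.ext
        omega
      refine h1 _ hn _ hτ'.2.2 ?_
      have e2 : (h ^ (-(((τ' : ℕ) : ℤ) - ((τ : ℕ) : ℤ))) : X ≃ₜ X)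
          ((h ^ ((τ' : ℕ) : ℤ) : X ≃ₜ X) t) = (h ^ ((τ : ℕ) : ℤ) : X ≃ₜ X) t := by
        have e3 : (h ^ (-(((τ' : ℕ) : ℤ) - ((τ : ℕ) : ℤ))) * h ^ ((τ' : ℕ) : ℤ) : X ≃ₜ X)
            = h ^ ((τ : ℕ) : ℤ) := by
          rw [← zpow_add]
          congr 1
          ring
        rw [← e3]
        rfl
      rw [e2]
      exact hτ.2.2
  obtain ⟨κ, σ, u, hwd, hu⟩ := hWin hWia r (SB r N) (vis h r N V t) (atx (cm h r g) t)
    (atx (cm h r y) t) hdis h2 hη
  have hcm : ∀ (g : FS X) (i k : Fin r), Continuous fun x => atx (cm h r g) x i k :=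
    fun g i k => (cm h r g i k).continuous
  have hcont : Continuous fun x => (Gm κ u (atx (cm h r g) x) (atx (cm h r y) x)).det := by
    refine Continuous.matrix_det ?_
    refine continuous_matrix fun i l => ?_
    unfold Gm
    have hm : ∀ (g : FS X) (i l : Fin r), Continuous fun x => (atx (cm h r g) x * u) i l := by
      intro g i l
      simp only [Matrix.mul_apply]
      exact continuous_finsetSum _ fun k _ => (hcm g i k).mul continuous_const
    by_cases k0 : κ l = 0
    · simp only [k0, if_true]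
      exact hm g i l
    · by_cases k1 : κ l = 1
      · simp only [k0, k1, if_true, if_false, Matrix.sub_apply]
        first
          | exact continuous_const.sub (hm g i l)
          | simpa using continuous_const.sub (hm g i l)
      · by_cases k2 : κ l = 2
        · simp only [k0, k1, k2, if_true, if_false]
          first
            | exact hm y i l
            | simpa using hm y i l
        · simp only [k0, k1, k2, if_false]
          exact continuous_const
  have hopen : IsOpen {x | (Gm κ u (atx (cm h r g) x) (atx (cm h r y) x)).det ≠ 0} :=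
    isOpen_ne_fun hcont continuous_const
  have hmem : t ∈ {x | (Gm κ u (atx (cm h r g) x) (atx (cm h r y) x)).det ≠ 0} :=
    ((Matrix.isUnit_iff_isUnit_det _).1 hu).ne_zero
  obtain ⟨O, hO1, hO2, hO3⟩ := compact_exists_isClopen_in_isOpen hopen hmem
  refine ⟨O, hO1, hO2, κ, σ, u, hwd, fun x hx => ?_⟩
  exact (Matrix.isUnit_iff_isUnit_det _).2 (isUnit_iff_ne_zero.2 (hO3 hx))

end Pool.Agent.Helper60.KX
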